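import Mathlib
import Pool.Agent.Run7.h935.NLC.Ball
import Pool.Agent.Run7.h935.NLC.NotLC

set_option autoImplicit false

/-!
# Non-evasive balls which are not locally constructible

In every dimension `d ≥ 4` there is a non-evasive triangulated `d`-ball (with `d + 9` vertices)
which is not locally constructible.  The definitions `IsCx`, `realization`, `IsBall`, `IsFacet`,
`AtMostTwo`, `SameFace`, `NonEvasive` are in `Pool.Agent.H933R3.Defs`, the definitions `TreeStage`,
`GlueStage`, `IsTreeLC` are in `Pool.Agent.Y364.E3.Tree`.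
-/

namespace Pool.Agent.Results.MP_9638d9_co.NonEvasiveNotLC

open Pool.Agent.H933R3 Pool.Agent.Y364.E3

/-- For every `d ≥ 4` there is a triangulated `d`-ball which is non-evasive and not locally
constructible. -/
theorem result (d : ℕ) (hd : 4 ≤ d) : ∃ K : Finset (Finset (Fin (d + 9))),
    IsCx K ∧ IsBall d K ∧ NonEvasive K ∧
      (∀ F, IsFacet K F → F.card = d + 1) ∧ AtMostTwo d K ∧ ¬ IsTreeLC d K := by
  obtain ⟨m, rfl⟩ : ∃ m, d = m + 3 := ⟨d - 3, by omega⟩
  have e : m + 3 + 9 = 12 + m := by omega
  rw [e]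
  open Pool.Agent.Run7.h935.NLC in
  exact ⟨KK m, isCx_KK m, isBall_KK m, nonEvasive_KK (by omega), fun F hF => card_facet hF,
    atMostTwo_KK m, not_isTreeLC_KK m⟩

end Pool.Agent.Results.MP_9638d9_co.NonEvasiveNotLC
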